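import Pool.Agent.Lib.MP_03797a_co.Main

/-! The extremal spiders. -/

namespace Pool.Agent.FS.FewLeaves

open Finset Pool.Agent.Lib.MP_03797a_co

/-- `j` is the parent of `i` -/
def Pa (i j : ℕ) : Prop := (i % 15 = 3 ∧ j = 2) ∨ (i % 15 ≠ 3 ∧ j + 1 = i)

/-- the spider with one leg of length 2 and `k` legs of length 15 -/
def spider (k : ℕ) : SimpleGraph (Fin (15 * k + 3)) where
  Adj u v := Pa u v ∨ Pa v u
  symm := ⟨fun _ _ h => h.symm⟩
  loopless := ⟨fun u h => by
    unfold Pa at h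
    omega⟩

theorem spider_adj {k : ℕ} {u v : Fin (15 * k + 3)} : (spider k).Adj u v ↔
    ((u : ℕ) % 15 = 3 ∧ (v : ℕ) = 2) ∨ ((u : ℕ) % 15 ≠ 3 ∧ (v : ℕ) + 1 = u) ∨
      ((v : ℕ) % 15 = 3 ∧ (u : ℕ) = 2) ∨ ((v : ℕ) % 15 ≠ 3 ∧ (u : ℕ) + 1 = v) :=
  or_assoc

/-- the parent -/
def pa {k : ℕ} (v : Fin (15 * k + 3)) : Fin (15 * k + 3) :=
  if (v : ℕ) % 15 = 3 then ⟨2, by omega⟩ else ⟨v - 1, by omega⟩

theorem pa_val {k : ℕ} (v : Fin (15 * k + 3)) :
    ((v : ℕ) % 15 = 3 ∧ (pa v : ℕ) = 2) ∨ ((v : ℕ) % 15 ≠ 3 ∧ (pa v : ℕ) = v - 1) := by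
  unfold pa
  split_ifs with h
  · exact Or.inl ⟨h, rfl⟩
  · exact Or.inr ⟨h, rfl⟩

theorem spider_tree (k : ℕ) : (spider k).IsTree := by
  classical
  have z : ∀ n (v : Fin (15 * k + 3)), (v : ℕ) = n → (spider k).Reachable v 0 := by
    intro n
    induction n using Nat.strong_induction_on with
    | _ n ih =>
      intro v hv
      by_cases h0 : n = 0
      · rw [show v = 0 from Fin.ext (hv.trans h0)]
      · have := pa_val v
        exact (spider_adj.mpr (by omega) : (spider k).Adj v (pa v)).reachable.trans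
          (ih _ (by omega) _ rfl)
  have con : (spider k).Connected := ⟨fun u v => (z _ u rfl).trans (z _ v rfl).symm⟩
  refine SimpleGraph.isTree_iff_connected_and_card.mpr ⟨con, le_antisymm ?_
    con.card_vert_le_card_edgeSet_add_one⟩
  have sub : (spider k).edgeSet ⊆ ((univ.erase 0).image fun v : Fin (15 * k + 3) => s(v, pa v) :
      Finset _) := by
    intro e he
    induction e using Sym2.ind with
    | h u v =>
      have a1 := spider_adj.mp (show (spider k).Adj u v from he)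
      have a2 := pa_val u
      have a3 := pa_val v
      rw [mem_coe, mem_image]
      by_cases c : (v : ℕ) < u
      · refine ⟨u, mem_erase.mpr ⟨fun e => ?_, mem_univ _⟩, by rw [show pa u = v from Fin.ext (by omega)]⟩
        rw [e] at c
        exact absurd c (Nat.not_lt_zero _)
      · refine ⟨v, mem_erase.mpr ⟨fun e => ?_, mem_univ _⟩, by
          rw [show pa v = u from Fin.ext (by omega), Sym2.eq_swap]⟩
        have : (v : ℕ) = 0 := by rw [e]; rfl
        omega
  have h1 := Set.ncard_le_ncard sub (finite_toSet _)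
  rw [Set.ncard_coe_finset] at h1
  have h2 := h1.trans card_image_le
  rw [card_erase_of_mem (mem_univ _), card_univ, Fintype.card_fin] at h2
  rw [Nat.card_coe_set_eq, Nat.card_eq_fintype_card, Fintype.card_fin]
  omega

theorem spider_leaf {k : ℕ} (hk : 1 ≤ k) (v : Fin (15 * k + 3)) :
    (∃! w, (spider k).Adj v w) ↔ (v : ℕ) = 0 ∨ ((v : ℕ) % 15 = 2 ∧ (v : ℕ) ≠ 2) := by
  have hv := v.2
  have a2 := pa_val v
  constructor
  · rintro ⟨w, -, h⟩
    by_contra c
    have e1 := h (pa v) (spider_adj.mpr (by omega))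
    have e2 := h ⟨v + 1, by omega⟩ (spider_adj.mpr (by dsimp only; omega))
    have e3 := congrArg Fin.val (e1.trans e2.symm)
    dsimp only at e3
    omega
  · rintro (h | h)
    · refine ⟨⟨1, by omega⟩, spider_adj.mpr (by dsimp only; omega), fun y hy => Fin.ext ?_⟩
      have := spider_adj.mp hy
      dsimp only
      omega
    · refine ⟨pa v, spider_adj.mpr (by omega), fun y hy => Fin.ext ?_⟩
      have := spider_adj.mp hy
      omega

theorem spider_leaves {k : ℕ} (hk : 1 ≤ k) : {v | ∃! w, (spider k).Adj v w}.ncard = k + 1 := by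
  let f : Fin (k + 1) → Fin (15 * k + 3) := fun t =>
    ⟨if (t : ℕ) = 0 then 0 else 15 * t + 2, by have := t.2; split_ifs <;> omega⟩
  have hf : ∀ t : Fin (k + 1), ((t : ℕ) = 0 ∧ (f t : ℕ) = 0) ∨
      ((t : ℕ) ≠ 0 ∧ (f t : ℕ) = 15 * t + 2) := fun t => by
    by_cases h : (t : ℕ) = 0
    · exact Or.inl ⟨h, if_pos h⟩
    · exact Or.inr ⟨h, if_neg h⟩
  have inj : Function.Injective f := fun s t e => Fin.ext (by
    have := hf s
    have := hf t
    have := congrArg Fin.val e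
    omega)
  have e : {v | ∃! w, (spider k).Adj v w} = f '' Set.univ := by
    ext v
    rw [Set.mem_ofPred_eq, spider_leaf hk]
    constructor
    · intro h
      have hv := v.2
      refine ⟨⟨v / 15, by omega⟩, trivial, Fin.ext ?_⟩
      have := hf ⟨v / 15, by omega⟩
      dsimp only at this
      omega
    · rintro ⟨t, -, rfl⟩
      have := hf t
      omega
  rw [e, Set.ncard_image_of_injective _ inj, Set.ncard_univ, Nat.card_eq_fintype_card,
    Fintype.card_fin]

/-- centres -/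
def Cn (i : ℕ) : Prop := i % 15 = 4 ∨ i % 15 = 5 ∨ i % 15 = 8 ∨ i % 15 = 9 ∨ i % 15 = 12 ∨
  i % 15 = 13 ∨ i % 15 = 1 ∨ (i % 15 = 2 ∧ i ≠ 2) ∨ i = 0

/-- marked `D` -/
def Dn (i : ℕ) : Prop := i % 15 = 5 ∨ i % 15 = 8 ∨ i % 15 = 9 ∨ i % 15 = 12 ∨
  (i % 15 = 0 ∧ i ≠ 0) ∨ i % 15 = 1 ∨ i = 2

/-- marked `B` -/
def Bn (i : ℕ) : Prop := i % 15 = 4 ∨ i % 15 = 6 ∨ i % 15 = 11 ∨ i % 15 = 13

theorem spider_marking {k : ℕ} (hk : 1 ≤ k) : ∃ P m, Marking (spider k) P m := by
  classical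
  let m : Fin (15 * k + 3) → Mark := fun v => if Dn v then .D else if Bn v then .B else .I
  have mD : ∀ v, Dn v.1 → m v = .D := fun v h => if_pos h
  have mB : ∀ v, Bn v.1 → m v = .B := fun v h => by
    have : ¬ Dn v.1 := by
      unfold Dn
      unfold Bn at h
      omega
    exact (if_neg this).trans (if_pos h)
  have mI : ∀ v, m v = .I ↔ ¬ Dn v.1 ∧ ¬ Bn v.1 := fun v => by
    constructor
    · intro e
      refine ⟨fun h => ?_, fun h => ?_⟩
      · rw [mD v h] at e
        cases e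
      · rw [mB v h] at e
        cases e
    · intro h
      exact (if_neg h.1).trans (if_neg h.2)
  refine ⟨{v | Cn v.1}, m, ?_, ?_, ?_, ?_, ?_⟩
  · intro p hp q hq v h1 h2
    rw [spider_adj] at h1 h2
    have a1 : Cn p.1 := hp
    have a2 : Cn q.1 := hq
    unfold Cn at a1 a2
    exact Fin.ext (by omega)
  · intro p hp
    have a1 : Cn p.1 := hp
    have a2 := p.2
    unfold Cn at a1
    by_cases c1 : (p : ℕ) % 15 = 5 ∨ (p : ℕ) % 15 = 12
    · refine Or.inl fun v hv => mB v ?_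
      rw [spider_adj] at hv
      unfold Bn
      omega
    · by_cases c2 : (p : ℕ) % 15 = 4 ∨ (p : ℕ) % 15 = 8 ∨ (p : ℕ) = 0 ∨ (p : ℕ) = 1
      · refine Or.inr ⟨⟨p + 1, by omega⟩, spider_adj.mpr (by dsimp only; omega),
          mD _ (by unfold Dn; dsimp only; omega), fun v hv n => (mI v).mpr ?_⟩
        rw [spider_adj] at hv
        have n' : (v : ℕ) ≠ p + 1 := fun e => n (Fin.ext e)
        unfold Dn Bn
        omega
      · refine Or.inr ⟨⟨p - 1, by omega⟩, spider_adj.mpr (by dsimp only; omega),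
          mD _ (by unfold Dn; dsimp only; omega), fun v hv n => (mI v).mpr ?_⟩
        rw [spider_adj] at hv
        have n' : (v : ℕ) ≠ p - 1 := fun e => n (Fin.ext e)
        unfold Dn Bn
        omega
  · intro v hv
    have a2 := v.2
    by_contra c
    rw [mI] at c
    unfold Dn Bn at c
    by_cases c1 : (v : ℕ) % 15 = 4 ∨ (v : ℕ) % 15 = 8 ∨ (v : ℕ) % 15 = 11 ∨ (v : ℕ) % 15 = 12 ∨
        (v : ℕ) % 15 = 0 ∨ ((v : ℕ) % 15 = 1 ∧ (v : ℕ) ≠ 1)
    · exact hv ⟨v + 1, by omega⟩ (by show Cn (v + 1); unfold Cn; omega)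
        (spider_adj.mpr (by dsimp only; omega))
    · exact hv ⟨v - 1, by omega⟩ (by show Cn (v - 1); unfold Cn; omega)
        (spider_adj.mpr (by dsimp only; omega))
  · intro v hv
    have a1 : ¬ Cn v.1 := hv
    have a2 := v.2
    unfold Cn at a1
    by_cases c1 : (v : ℕ) % 15 = 7 ∨ (v : ℕ) % 15 = 11 ∨ (v : ℕ) % 15 = 14 ∨ (v : ℕ) % 15 = 0
    · exact ⟨⟨v + 1, by omega⟩, spider_adj.mpr (by dsimp only; omega),
        mD _ (by unfold Dn; dsimp only; omega)⟩
    · have := pa_val v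
      exact ⟨pa v, spider_adj.mpr (by omega), mD _ (by unfold Dn; omega)⟩
  · intro u v h e1 e2
    rw [spider_adj] at h
    rw [mI] at e1 e2
    unfold Dn Bn at e1 e2
    omega

theorem spider_not_family {k : ℕ} (hk : 1 ≤ k) : ¬ InFamilyT (spider k) := by
  rintro (h | ⟨S, -, h2, h3⟩)
  · rw [Nat.card_eq_fintype_card, Fintype.card_fin] at h
    omega
  · have key : ∀ s ∈ S, ¬ (8 ≤ (s : ℕ) ∧ (s : ℕ) ≤ 10) := fun s hs c => by
      obtain ⟨-, l, l1, l2⟩ := h3 s hs
      have := (spider_leaf hk l).mp ⟨s, l1.symm, l2⟩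
      rw [spider_adj] at l1
      omega
    by_cases c : (⟨9, by omega⟩ : Fin (15 * k + 3)) ∈ S
    · exact key _ c (by dsimp only; omega)
    · obtain ⟨s, ⟨s1, s2⟩, -⟩ := h2 _ c
      rw [spider_adj] at s2
      dsimp only at s2
      exact key s s1 (by omega)

end Pool.Agent.FS.FewLeaves
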