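import Pool.Agent.Lib.MP_03797a_co.Main

/-! A tree with a marking has many leaves. -/

namespace Pool.Agent.FS.FewLeaves

open Finset Pool.Agent.Lib.MP_03797a_co

/-- the mark of a type -/
def mk (t : Fin 9) : ℕ := [0, 1, 2, 0, 0, 1, 1, 2, 2].getD t 0

/-- the kind of a type: no centre, centre with neighbours `B`, centre with one neighbour `D` -/
def kd (t : Fin 9) : ℕ := [0, 0, 0, 1, 2, 1, 2, 1, 2].getD t 0

/-- the potential, shifted by 14 -/
def pot (s t : Fin 9) : ℕ :=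
  ([[6, 10, 14, 0, 1, 0, 5, 0, 0], [2, 6, 10, 5, 0, 5, 0, 9, 0], [2, 6, 0, 0, 9, 0, 13, 0, 0],
    [0, 11, 0, 0, 0, 0, 4, 0, 0], [15, 0, 7, 0, 8, 0, 0, 0, 0], [0, 3, 0, 0, 0, 4, 0, 0, 0],
    [7, 0, 3, 12, 0, 0, 0, 4, 0], [0, 3, 0, 0, 0, 0, 8, 0, 0],
    [7, 0, 0, 0, 16, 0, 0, 0, 0]].getD s []).getD t 0

/-- the two types can be adjacent -/
def ok (s t : Fin 9) : Bool :=
  (kd s != 1 || mk t == 1) && (kd s != 2 || mk t != 1) && (kd t != 1 || mk s == 1) &&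
    (kd t != 2 || mk s != 1) && (mk s != 2 || mk t != 2)

theorem chk1 : ∀ v c : Fin 9, ok v c = true → kd c = 0 → (kd v = 2 → mk c ≠ 0) → pot v c ≤ 14 := by
  decide +kernel

theorem chk2 : ∀ q v a : Fin 9, ok q v = true → ok v a = true → (kd q = 0 ∨ kd a = 0) →
    (kd v = 2 → mk q ≠ 0 ∨ mk a ≠ 0) → (mk v ≠ 2 → kd q ≠ 0 ∨ kd a ≠ 0) →
    (kd v ≠ 1 → mk q = 0 ∨ mk a = 0) → 1 + pot v a ≤ pot q v := by
  decide +kernel

theorem chk3' : ∀ q v a b : Fin 9, (ok q v && ok v a && ok v b && (kd q == 0 || kd a == 0) &&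
    (kd v != 2 || mk q != 0 || mk a != 0) && (mk v == 2 || kd q != 0 || kd a != 0) && kd b == 0 &&
    (kd v != 2 || mk q != 0 || mk b != 0) && (kd v != 2 || mk a != 0 || mk b != 0) &&
    (kd v == 1 || mk q == 0 || mk b == 0)) = true → 1 + pot v a + pot v b ≤ pot q v + 14 := by
  decide +kernel

theorem chk3 (q v : Fin 9) (h1 : ok q v = true) (a : Fin 9) (h2 : ok v a = true)
    (h3 : kd q = 0 ∨ kd a = 0) (h4 : kd v = 2 → mk q ≠ 0 ∨ mk a ≠ 0)
    (h5 : mk v ≠ 2 → kd q ≠ 0 ∨ kd a ≠ 0) (b : Fin 9) (h6 : ok v b = true) (h7 : kd b = 0)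
    (h8 : kd v = 2 → mk q ≠ 0 ∨ mk b ≠ 0) (h9 : kd v = 2 → mk a ≠ 0 ∨ mk b ≠ 0)
    (h10 : kd v ≠ 1 → mk q = 0 ∨ mk b = 0) : 1 + pot v a + pot v b ≤ pot q v + 14 := by
  refine chk3' q v a b ?_
  simp only [Bool.and_eq_true, Bool.or_eq_true, beq_iff_eq, bne_iff_ne, h1, h2, h6, true_and]
  omega

theorem chk4 : ∀ r c : Fin 9, pot r c ≤ 16 := by
  decide +kernel

variable {V : Type} {G : SimpleGraph V}

/-- the local rules for types -/
structure Typed (G : SimpleGraph V) (τ : V → Fin 9) : Prop where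
  e : ∀ u v, G.Adj u v → ok (τ u) (τ v) = true
  u1 : ∀ v a b, G.Adj v a → G.Adj v b → kd (τ a) ≠ 0 → kd (τ b) ≠ 0 → a = b
  u2 : ∀ v a b, kd (τ v) = 2 → G.Adj v a → G.Adj v b → mk (τ a) = 0 → mk (τ b) = 0 → a = b
  x1 : ∀ v, mk (τ v) ≠ 2 → ∃ a, G.Adj v a ∧ kd (τ a) ≠ 0
  x2 : ∀ v, kd (τ v) ≠ 1 → ∃ a, G.Adj v a ∧ mk (τ a) = 0

theorem exists_type : ∀ a b : Fin 3, ∃ t : Fin 9, mk t = a ∧ kd t = b := by
  decide +kernel

theorem ok_of (s t : Fin 9) (h1 : kd s = 1 → mk t = 1) (h2 : kd s = 2 → mk t ≠ 1)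
    (h3 : kd t = 1 → mk s = 1) (h4 : kd t = 2 → mk s ≠ 1) (h5 : mk s = 2 → mk t ≠ 2) :
    ok s t = true := by
  revert s t
  decide +kernel

open scoped Classical

theorem exists_typed {P : Set V} {m : V → Mark} (h : Marking G P m) : ∃ τ, Typed G τ := by
  have key : ∀ v, ∃ t : Fin 9, (mk t = 0 ↔ m v = .D) ∧ (mk t = 1 ↔ m v = .B) ∧
      (mk t = 2 ↔ m v = .I) ∧ (kd t ≠ 0 ↔ v ∈ P) ∧ (kd t = 1 → ∀ u, G.Adj v u → m u = .B) ∧
      (kd t = 2 → ∃ d, G.Adj v d ∧ m d = .D ∧ ∀ u, G.Adj v u → u ≠ d → m u = .I) ∧ kd t < 3 := by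
    intro v
    obtain ⟨a, ha⟩ : ∃ a : Fin 3, ((a : ℕ) = 0 ↔ m v = .D) ∧ ((a : ℕ) = 1 ↔ m v = .B) ∧
        ((a : ℕ) = 2 ↔ m v = .I) := by
      cases m v
      · exact ⟨0, by simp⟩
      · exact ⟨1, by simp⟩
      · exact ⟨2, by simp⟩
    obtain ⟨b, hb⟩ : ∃ b : Fin 3, ((b : ℕ) ≠ 0 ↔ v ∈ P) ∧
        ((b : ℕ) = 1 → ∀ u, G.Adj v u → m u = .B) ∧ ((b : ℕ) = 2 →
          ∃ d, G.Adj v d ∧ m d = .D ∧ ∀ u, G.Adj v u → u ≠ d → m u = .I) := by
      by_cases hv : v ∈ P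
      · rcases h.centre v hv with h' | h'
        · exact ⟨1, by simp [hv], fun _ => h', by simp⟩
        · exact ⟨2, by simp [hv], by simp, fun _ => h'⟩
      · exact ⟨0, by simp [hv], by simp, by simp⟩
    obtain ⟨t, e1, e2⟩ := exists_type a b
    rw [← e1] at ha
    have := b.2
    rw [← e2] at hb this
    exact ⟨t, ha.1, ha.2.1, ha.2.2, hb.1, hb.2.1, hb.2.2, this⟩
  choose τ d b i p k1 k2 k3 using key
  have nb : ∀ u v, G.Adj u v → kd (τ u) = 2 → mk (τ v) ≠ 1 := fun u v huv h2 e => by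
    obtain ⟨x, -, x2, x3⟩ := k2 u h2
    have e' := (b v).mp e
    by_cases hx : v = x
    · rw [hx, x2] at e'
      cases e'
    · rw [x3 v huv hx] at e'
      cases e'
  refine ⟨τ, fun u v huv => ok_of _ _ (fun e => (b v).mpr (k1 u e v huv)) (nb u v huv)
    (fun e => (b u).mpr (k1 v e u huv.symm)) (nb v u huv.symm)
    (fun e e' => h.indep u v huv ((i u).mp e) ((i v).mp e')),
    fun v a c ha hc e1 e2 => h.pack a ((p a).mp e1) c ((p c).mp e2) v ha.symm hc.symm,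
    fun v a c h2 ha hc e1 e2 => ?_, fun v hv => ?_, fun v hv => ?_⟩
  · obtain ⟨x, -, -, x3⟩ := k2 v h2
    have f : ∀ y, G.Adj v y → mk (τ y) = 0 → y = x := fun y hy e => by
      by_contra hx
      have e' := (d y).mp e
      rw [x3 y hy hx] at e'
      cases e'
    rw [f a ha e1, f c hc e2]
  · by_contra hc
    exact hv ((i v).mpr (h.far v fun q hq hqv => hc ⟨q, hqv.symm, (p q).mpr hq⟩))
  · by_cases h0 : kd (τ v) = 0
    · obtain ⟨x, x1, x2⟩ := h.outer v fun hv' => (p v).mpr hv' h0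
      exact ⟨x, x1, (d x).mpr x2⟩
    · obtain ⟨x, x1, x2, -⟩ := k2 v (by have := k3 v; omega)
      exact ⟨x, x1, (d x).mpr x2⟩

theorem local_ineq {τ : V → Fin 9} (h : Typed G τ) {q v : V} (hq : G.Adj q v) {C : Finset V}
    (hC : ∀ c, c ∈ C ↔ G.Adj v c ∧ c ≠ q) (hne : C.Nonempty) :
    1 + ∑ c ∈ C, ((pot (τ v) (τ c) : ℤ) - 14) ≤ pot (τ q) (τ v) - 14 := by
  obtain ⟨a, ha, ha'⟩ : ∃ a ∈ C, ∀ c ∈ C, kd (τ c) ≠ 0 → c = a := by
    by_cases e : ∃ c ∈ C, kd (τ c) ≠ 0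
    · obtain ⟨c, hc, e⟩ := e
      exact ⟨c, hc, fun x hx e' => h.u1 v x c ((hC x).mp hx).1 ((hC c).mp hc).1 e' e⟩
    · exact ⟨_, hne.choose_spec, fun x hx e' => absurd ⟨x, hx, e'⟩ e⟩
  obtain ⟨b, hb, hb'⟩ : ∃ b ∈ C, ∀ c ∈ C, mk (τ c) = 0 → mk (τ b) = 0 := by
    by_cases e : ∃ c ∈ C, mk (τ c) = 0
    · obtain ⟨c, hc, e⟩ := e
      exact ⟨c, hc, fun _ _ _ => e⟩
    · exact ⟨_, hne.choose_spec, fun x hx e' => absurd ⟨x, hx, e'⟩ e⟩
  obtain ⟨a1, a2⟩ := (hC a).mp ha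
  obtain ⟨b1, b2⟩ := (hC b).mp hb
  have s1 : ∑ c ∈ C, ((pot (τ v) (τ c) : ℤ) - 14) ≤
      ∑ c ∈ ({a, b} : Finset V), ((pot (τ v) (τ c) : ℤ) - 14) := by
    have sub : ({a, b} : Finset V) ⊆ C := insert_subset ha (singleton_subset_iff.mpr hb)
    rw [← sum_sdiff sub]
    refine add_le_of_nonpos_left (sum_nonpos fun c hc => ?_)
    obtain ⟨c1, c2⟩ := mem_sdiff.mp hc
    rw [mem_insert, mem_singleton, not_or] at c2
    have := chk1 (τ v) (τ c) (h.e v c ((hC c).mp c1).1) (by_contra fun e => c2.1 (ha' c c1 e))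
      fun e e' => c2.2 (h.u2 v c b e ((hC c).mp c1).1 b1 e' (hb' c c1 e'))
    omega
  have p1 : kd (τ q) = 0 ∨ kd (τ a) = 0 := by
    by_contra e
    rw [not_or] at e
    exact a2 (h.u1 v a q a1 hq.symm e.2 e.1)
  have p2 : ∀ x y, G.Adj v x → G.Adj v y → x ≠ y → kd (τ v) = 2 → mk (τ x) ≠ 0 ∨ mk (τ y) ≠ 0 :=
    fun x y hx hy n e => by
      by_contra e'
      rw [not_or, not_not, not_not] at e'
      exact n (h.u2 v x y e hx hy e'.1 e'.2)
  have p3 : mk (τ v) ≠ 2 → kd (τ q) ≠ 0 ∨ kd (τ a) ≠ 0 := fun e => by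
    obtain ⟨x, x1, x2⟩ := h.x1 v e
    by_cases hx : x = q
    · exact Or.inl (hx ▸ x2)
    · exact Or.inr (ha' x ((hC x).mpr ⟨x1, hx⟩) x2 ▸ x2)
  have p4 : kd (τ v) ≠ 1 → mk (τ q) = 0 ∨ mk (τ b) = 0 := fun e => by
    obtain ⟨x, x1, x2⟩ := h.x2 v e
    by_cases hx : x = q
    · exact Or.inl (hx ▸ x2)
    · exact Or.inr (hb' x ((hC x).mpr ⟨x1, hx⟩) x2)
  by_cases e : a = b
  · subst e
    rw [insert_eq_of_mem (mem_singleton_self a), sum_singleton] at s1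
    have := chk2 _ _ _ (h.e q v hq) (h.e v a a1) p1 (p2 q a hq.symm a1 a2.symm) p3 p4
    omega
  · rw [sum_pair e] at s1
    have := chk3 _ _ (h.e q v hq) _ (h.e v a a1) p1 (p2 q a hq.symm a1 a2.symm) p3 _ (h.e v b b1)
      (by_contra fun e' => e (ha' b hb e').symm) (p2 q b hq.symm b1 b2.symm) (p2 a b a1 b1 e) p4
    omega

theorem exists_par (hG : G.IsTree) (r v : V) :
    ∃ y, v ≠ r → G.Adj y v ∧ G.dist r v = G.dist r y + 1 := by
  by_cases hv : v = r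
  · exact ⟨r, fun h => absurd hv h⟩
  obtain ⟨p, hp⟩ := hG.connected.exists_walk_length_eq_dist v r
  cases p with
  | nil => exact absurd rfl hv
  | @cons _ y _ h p =>
    refine ⟨y, fun _ => ⟨h.symm, ?_⟩⟩
    have a1 := hG.dist_eq_dist_add_one_of_adj r h
    have a2 := SimpleGraph.dist_le p
    rw [SimpleGraph.Walk.length_cons, SimpleGraph.dist_comm] at hp
    rw [SimpleGraph.dist_comm] at a2
    omega

theorem upper [Fintype V] [Nontrivial V] (hG : G.IsTree) {τ : V → Fin 9} (h : Typed G τ) :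
    Fintype.card V + 12 ≤ 15 * {v | ∃! w, G.Adj v w}.ncard := by
  obtain ⟨r, hr⟩ := hG.exists_vert_degree_one_of_nontrivial
  obtain ⟨c₀, hc₀, hc₁⟩ := SimpleGraph.degree_eq_one_iff_existsUnique_adj.mp hr
  choose par hpar using exists_par hG r
  set g : V → ℤ := fun c => (pot (τ (par c)) (τ c) : ℤ) - 14 with hg
  set C : V → Finset V := fun v => (univ.erase r).filter fun c => par c = v with hC
  set w : V → ℤ := fun v => if ∃! x, G.Adj v x then -14 else 1 with hw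
  have mC : ∀ v c, c ∈ C v ↔ c ≠ r ∧ par c = v := fun v c => by simp [hC]
  have sC : ∀ v, ∑ c ∈ C v, g c = ∑ c ∈ C v, ((pot (τ v) (τ c) : ℤ) - 14) := fun v =>
    sum_congr rfl fun c hc => by rw [hg, ← ((mC v c).mp hc).2]
  have loc : ∀ v ∈ univ.erase r, w v + ∑ c ∈ C v, g c ≤ g v := by
    intro v hv
    obtain ⟨a1, a2⟩ := hpar v (ne_of_mem_erase hv)
    have ch : ∀ c, c ∈ C v ↔ G.Adj v c ∧ c ≠ par v := fun c => by
      rw [mC]
      constructor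
      · rintro ⟨c1, c2⟩
        obtain ⟨b1, b2⟩ := hpar c c1
        rw [c2] at b1 b2
        exact ⟨b1, fun e => by rw [e] at b2; omega⟩
      · rintro ⟨c1, c2⟩
        rcases hG.dist_eq_dist_add_one_of_adj r c1 with e | e
        · exact absurd (parent_unique hG c1.symm a1 e a2) c2
        · have c3 : c ≠ r := fun e' => by
            rw [e', SimpleGraph.dist_self] at e
            omega
          exact ⟨c3, parent_unique hG (hpar c c3).1 c1 (hpar c c3).2 e⟩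
    rcases (C v).eq_empty_or_nonempty with e | e
    · have lf : ∃! x, G.Adj v x := ⟨par v, a1.symm, fun x hx => by
        by_contra n
        have := (ch x).mpr ⟨hx, n⟩
        rw [e] at this
        exact notMem_empty _ this⟩
      rw [e, sum_empty, hw, hg]
      simp only [if_pos lf]
      omega
    · have := local_ineq h a1 ch e
      have w1 : w v ≤ 1 := by
        rw [hw]
        dsimp only
        split_ifs <;> omega
      rw [sC, hg]
      dsimp only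
      omega
  have root : w r + ∑ c ∈ C r, g c ≤ -12 := by
    have e : C r = {c₀} := by
      ext c
      rw [mC, mem_singleton]
      constructor
      · rintro ⟨c1, c2⟩
        exact hc₁ c (c2 ▸ (hpar c c1).1)
      · rintro rfl
        obtain ⟨b1, b2⟩ := hpar c hc₀.ne'
        refine ⟨hc₀.ne', parent_unique hG b1 hc₀ b2 ?_⟩
        rw [SimpleGraph.dist_self, SimpleGraph.dist_eq_one_iff_adj.mpr hc₀]
    have := chk4 (τ r) (τ c₀)
    have wr : w r = -14 := if_pos ⟨c₀, hc₀, hc₁⟩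
    rw [sC, e, sum_singleton, wr]
    omega
  have s1 : ∑ v, ∑ c ∈ C v, g c = ∑ c ∈ univ.erase r, g c := sum_fiberwise _ par g
  have s2 := sum_le_sum loc
  have s3 := add_sum_erase univ (fun v => w v + ∑ c ∈ C v, g c) (mem_univ r)
  rw [sum_add_distrib (s := univ), s1] at s3
  have s4 : ∑ v, w v = Fintype.card V - 15 * ({v | ∃! w, G.Adj v w}.ncard : ℤ) := by
    have : ∀ v, w v = 1 - 15 * (if ∃! x, G.Adj v x then 1 else 0) := fun v => by
      rw [hw]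
      dsimp only
      split_ifs <;> rfl
    rw [sum_congr rfl fun v _ => this v, sum_sub_distrib, ← mul_sum, sum_boole,
      Set.ncard_eq_toFinset_card']
    simp
  omega

end Pool.Agent.FS.FewLeaves
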